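import Pool.Agent.Helper59.SL.GoalsC

/-!
# Project SL (MP_fc6b1e_nt), packet SLG VAL
-/

universe u v w

namespace Pool.Agent.Helper94.SLG.VAL

open Pool.Agent.Helper59.SL

theorem thm : S_VAL.{u, v, w} := by
  intro k _ _ Ω _ _ _ ι G _ _ χ
  set N : ℕ := Nat.card G with hN
  have hN0 : N ≠ 0 := Nat.card_pos.ne'
  have : NeZero N := ⟨hN0⟩
  have : NeZero (N : Ω) := ⟨Nat.cast_ne_zero.mpr hN0⟩
  obtain ⟨ζ, hζ⟩ := HasEnoughRootsOfUnity.exists_primitiveRoot Ω N
  have hζk : IsPrimitiveRoot (ι ζ) N := hζ.map_of_injective ι.injective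
  let E : IntermediateField ℚ Ω := IntermediateField.adjoin ℚ {ζ}
  have hint : IsIntegral ℚ ζ := by
    refine IsIntegral.of_pow (Nat.pos_of_ne_zero hN0) ?_
    rw [hζ.pow_eq_one]
    exact isIntegral_one
  have hfd : FiniteDimensional ℚ E := IntermediateField.adjoin.finiteDimensional hint
  have hE : NumberField E := { to_charZero := inferInstance, to_finiteDimensional := hfd }
  have hζE : ζ ∈ E := IntermediateField.mem_adjoin_simple_self ℚ ζ
  let f : E →+* k := ι.comp (algebraMap E Ω)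
  have hf : Function.Injective (Units.map (f : E →* k)) := Units.map_injective f.injective
  have hrange : ∀ g, χ g ∈ (Units.map (f : E →* k)).range := by
    intro g
    have h1 : ((χ g : kˣ) : k) ^ N = 1 := by
      rw [← Units.val_pow_eq_pow_val, ← map_pow, hN, pow_card_eq_one', map_one, Units.val_one]
    obtain ⟨i, -, hi⟩ := hζk.eq_pow_of_pow_eq_one h1
    have hz : (⟨ζ, hζE⟩ : E) ≠ 0 := by
      intro h
      exact hζ.ne_zero hN0 (congrArg Subtype.val h)
    refine ⟨(Units.mk0 (⟨ζ, hζE⟩ : E) hz) ^ i, ?_⟩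
    apply Units.ext
    rw [← hi]
    simp [f]
  let χ₁ : G →* (Units.map (f : E →* k)).range := χ.codRestrict _ hrange
  let χ₀ : G →* Eˣ := ((MonoidHom.ofInjective hf).symm : (Units.map (f : E →* k)).range →* Eˣ).comp χ₁
  refine ⟨E, hE, χ₀, fun g ↦ ?_⟩
  have h2 : Units.map (f : E →* k) (χ₀ g) = χ g := by
    have := MulEquiv.apply_symm_apply (MonoidHom.ofInjective hf) (χ₁ g)
    exact congrArg Subtype.val this
  exact congrArg Units.val h2

end Pool.Agent.Helper94.SLG.VAL
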